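import Mathlib

/-!
# Two Lipschitz homeomorphic, non-isomorphic WCG spaces of density `ℵ₁`

Let `Γ` have cardinality `ℵ₁`, let `(A γ)` be an almost disjoint family of infinite subsets of a
countable set `N`, and let `e γ` be the unit vectors of `ℓ₂(Γ)`. Inside `ℓ_∞(N; ℓ₂(Γ)) × ℓ_∞(Γ)` let
`X` be the closed span of the `(1_{n} ⊗ e γ, 0)` and the `(1_{A γ} ⊗ e γ, 1_{γ})`, and let
`W = c₀(N; ℓ₂(Γ)) × c₀(Γ)`, the closed span of the `(1_{n} ⊗ e γ, 0)` and the `(0, 1_{γ})`.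

* Both are generated by weakly compact sets: the generators satisfy upper `ℓ₂` estimates.
* For `G ⊆ Γ` the map `c₀(G) → ℓ₂(G)` sending `y` to `(max |y| - second max |y|)` (with sign) at the
  place where `|y|` is largest is Lipschitz; applied with `G = {γ : n ∈ A γ}` for all `n ∈ N` it
  gives a Lipschitz lifting of the quotient map `X → X / c₀(N; ℓ₂(Γ)) = c₀(Γ)`, hence a Lipschitz
  homeomorphism of `X` and `W`.
* `X` embeds in `ℓ_∞(N; ℓ₂(Γ))`, and an operator from `c₀(Γ)` to this space kills all but countably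
  many unit vectors (cotype 2), so `X` contains no copy of `c₀(Γ)`, whereas `W` does.
-/

set_option autoImplicit false
open Set Metric Filter Topology

namespace Pool.Agent.Helper830.LipWCG

noncomputable section

/-! ### Part 1: families with an upper `ℓ₂` estimate -/

section general

variable {V : Type*} [NormedAddCommGroup V] [NormedSpace ℝ V]

/-- upper `ℓ₂` estimate -/
def UpperL2 {J : Type*} (g : J → V) : Prop :=
  ∀ (F : Finset J) (c : J → ℝ), ‖∑ i ∈ F, c i • g i‖ ≤ Real.sqrt (∑ i ∈ F, c i ^ 2)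

theorem UpperL2.sum_sq_le {J : Type*} {g : J → V} (hg : UpperL2 g) (f : V →L[ℝ] ℝ)
    (F : Finset J) : ∑ i ∈ F, (f (g i)) ^ 2 ≤ ‖f‖ ^ 2 := by
  set S := ∑ i ∈ F, (f (g i)) ^ 2 with hS
  have hS0 : 0 ≤ S := Finset.sum_nonneg (fun i _ => sq_nonneg _)
  have h1 : S = f (∑ i ∈ F, f (g i) • g i) := by
    rw [map_sum, hS]
    refine Finset.sum_congr rfl (fun i _ => ?_)
    rw [map_smul, smul_eq_mul, pow_two]
  have h2 : S ≤ ‖f‖ * Real.sqrt S := by
    calc S = f (∑ i ∈ F, f (g i) • g i) := h1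
      _ ≤ ‖f (∑ i ∈ F, f (g i) • g i)‖ := le_abs_self _
      _ ≤ ‖f‖ * ‖∑ i ∈ F, f (g i) • g i‖ := f.le_opNorm _
      _ ≤ ‖f‖ * Real.sqrt S := mul_le_mul_of_nonneg_left (hg F (fun i => f (g i))) (norm_nonneg _)
  have h3 : Real.sqrt S * Real.sqrt S = S := Real.mul_self_sqrt hS0
  rcases eq_or_lt_of_le (Real.sqrt_nonneg S) with h4 | h4
  · have : S = 0 := by rw [← h3, ← h4]; ring
    rw [this]; positivity
  · have h5 : Real.sqrt S ≤ ‖f‖ := by
      by_contra hcon
      push Not at hcon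
      nlinarith
    calc S = Real.sqrt S * Real.sqrt S := h3.symm
      _ ≤ ‖f‖ * ‖f‖ := mul_le_mul h5 h5 (Real.sqrt_nonneg _) (norm_nonneg _)
      _ = ‖f‖ ^ 2 := by ring

theorem UpperL2.tendsto {J : Type*} {g : J → V} (hg : UpperL2 g) (f : V →L[ℝ] ℝ) :
    Tendsto (fun i => f (g i)) cofinite (𝓝 0) := by
  have h1 : Summable (fun i => (f (g i)) ^ 2) :=
    summable_of_sum_le (c := ‖f‖ ^ 2) (fun i => sq_nonneg _) (fun F => hg.sum_sq_le f F)
  have h2 := h1.tendsto_cofinite_zero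
  have h3 : Tendsto (fun i => Real.sqrt ((f (g i)) ^ 2)) cofinite (𝓝 (Real.sqrt 0)) :=
    (Real.continuous_sqrt.tendsto 0).comp h2
  rw [Real.sqrt_zero] at h3
  simp only [Real.sqrt_sq_eq_abs] at h3
  exact (tendsto_zero_iff_abs_tendsto_zero _).2 h3

theorem UpperL2.isCompact {J : Type*} {g : J → V} (hg : UpperL2 g) :
    IsCompact (toWeakSpace ℝ V '' (insert 0 (range g))) := by
  have h1 : toWeakSpace ℝ V '' (insert 0 (range g)) =
      insert 0 (range (fun i => toWeakSpace ℝ V (g i))) := by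
    rw [image_insert_eq, ← range_comp, map_zero]
    rfl
  rw [h1]
  refine Filter.Tendsto.isCompact_insert_range_of_cofinite ?_
  have h2 := (WeakBilin.tendsto_iff_forall_eval_tendsto (B := (topDualPairing ℝ V).flip)
    (l := (cofinite : Filter J)) (f := fun i => toWeakSpace ℝ V (g i)) (x := (0 : WeakSpace ℝ V)))
  have hinj : Function.Injective ((topDualPairing ℝ V).flip) := by
    intro x y hxy
    refine (SeparatingDual.eq_iff_forall_dual_eq (R := ℝ)).2 (fun f => ?_)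
    exact congrArg (fun L : (V →L[ℝ] ℝ) →ₗ[ℝ] ℝ => L f) hxy
  refine (h2 hinj).2 ?_
  intro f
  have h3 := hg.tendsto f
  have h4 : (topDualPairing ℝ V).flip (0 : V) f = 0 := by simp
  change Tendsto (fun i => f (g i)) cofinite (𝓝 ((topDualPairing ℝ V).flip (0 : V) f))
  rw [h4]
  exact h3

/-- lifting a family to the closed span -/
theorem dense_span {J : Type*} (g : J → V) (W : Submodule ℝ V)
    (hW : W = (Submodule.span ℝ (range g)).topologicalClosure) (g' : J → W)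
    (hg' : ∀ i, (g' i : V) = g i) :
    Dense ((Submodule.span ℝ (range g') : Submodule ℝ W) : Set W) := by
  intro v
  have h1 : Submodule.map W.subtype (Submodule.span ℝ (range g')) = Submodule.span ℝ (range g) := by
    rw [Submodule.map_span, ← range_comp]
    congr 2
    funext i
    exact hg' i
  have h2 : (v : V) ∈ closure (Submodule.span ℝ (range g) : Set V) := by
    have h3 : ∀ x : V, x ∈ W → x ∈ closure (Submodule.span ℝ (range g) : Set V) := by
      intro x hx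
      rw [hW] at hx
      exact hx
    exact h3 v v.2
  rw [Metric.mem_closure_iff] at h2 ⊢
  intro ε hε
  obtain ⟨p, hp, hd⟩ := h2 ε hε
  rw [← h1] at hp
  obtain ⟨p', hp', rfl⟩ := hp
  exact ⟨p', hp', hd⟩

/-- density upper bound -/
theorem exists_dense_le {V : Type} [NormedAddCommGroup V] [NormedSpace ℝ V]
    {J : Type} [Nonempty J] (g : J → V) (hd : Dense ((Submodule.span ℝ (range g) :
    Submodule ℝ V) : Set V)) (hJ : Cardinal.mk J ≤ Cardinal.aleph 1) :
    ∃ D : Set V, Dense D ∧ Cardinal.mk D ≤ Cardinal.aleph 1 := by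
  let L : (J →₀ ℚ) →+ V :=
    { toFun := fun c => c.sum (fun i q => (q : ℝ) • g i)
      map_zero' := by simp
      map_add' := by
        intro c d
        rw [Finsupp.sum_add_index']
        · intro i; simp
        · intro i a b; push_cast; rw [add_smul] }
  have hL : ∀ c : J →₀ ℚ, L c = c.sum (fun i q => (q : ℝ) • g i) := fun _ => rfl
  have hq : ∀ (q : ℚ) (c : J →₀ ℚ), L (q • c) = (q : ℝ) • L c := by
    intro q c
    rw [hL, hL, Finsupp.sum_smul_index', Finsupp.smul_sum]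
    · refine Finsupp.sum_congr (fun i _ => ?_)
      rw [smul_eq_mul, Rat.cast_mul, mul_smul]
    · intro i; simp
  refine ⟨range L, ?_, ?_⟩
  · have h1 : ∀ (t : ℝ) (x : V), x ∈ range L → t • x ∈ closure (range L) := by
      rintro t _ ⟨c, rfl⟩
      have h2 : t ∈ closure (range ((↑) : ℚ → ℝ)) := by
        rw [Rat.denseRange_cast.closure_range]; trivial
      have h3 : Continuous (fun t : ℝ => t • L c) := by fun_prop
      have h6 : (fun t : ℝ => t • L c) t ∈ closure (range L) :=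
        map_mem_closure (f := fun t : ℝ => t • L c) h3 h2
          (by rintro _ ⟨q, rfl⟩; exact ⟨q • c, hq q c⟩)
      exact h6
    have h4 : ∀ (t : ℝ) (x : V), x ∈ closure (range L) → t • x ∈ closure (range L) := by
      intro t x hx
      have h5 : Continuous (fun x : V => t • x) := by fun_prop
      have h6 := map_mem_closure h5 hx (t := closure (range L)) (fun y hy => h1 t y hy)
      rwa [closure_closure] at h6
    have h7 : (Submodule.span ℝ (range g) : Set V) ⊆ closure (range L) := by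
      intro x hx
      have hadd : ∀ x y : V, x ∈ closure (range L) → y ∈ closure (range L) →
          x + y ∈ closure (range L) := by
        intro x y hx hy
        exact (L.range.topologicalClosure).add_mem hx hy
      refine Submodule.span_induction ?_ ?_ ?_ ?_ hx
      · rintro _ ⟨i, rfl⟩
        refine subset_closure ⟨Finsupp.single i 1, ?_⟩
        rw [hL, Finsupp.sum_single_index] <;> simp
      · exact subset_closure ⟨0, map_zero L⟩
      · intro x y _ _ hx hy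
        exact hadd x y hx hy
      · intro t x _ hx
        exact h4 t x hx
    intro x
    have h8 := closure_mono h7
    rw [closure_closure] at h8
    exact h8 (hd x)
  · refine (Cardinal.mk_range_le).trans ?_
    rw [Cardinal.mk_finsupp_of_infinite' J ℚ]
    refine max_le hJ ?_
    rw [Cardinal.mkRat]
    exact Cardinal.aleph0_le_aleph 1

/-- density lower bound -/
theorem le_of_dense {J : Type} {V : Type} [NormedAddCommGroup V] (h : J → V)
    (hsep : ∀ i j, i ≠ j → 1 ≤ ‖h i - h j‖) (D : Set V) (hD : Dense D) :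
    Cardinal.mk J ≤ Cardinal.mk D := by
  have h1 : ∀ i, ∃ d : D, dist (h i) d < 1 / 3 := by
    intro i
    obtain ⟨d, hd, hdist⟩ := Metric.mem_closure_iff.1 (hD (h i)) (1 / 3) (by norm_num)
    exact ⟨⟨d, hd⟩, hdist⟩
  choose d hd using h1
  refine Cardinal.mk_le_of_injective (f := d) ?_
  intro i j hij
  by_contra hne
  have h2 := hsep i j hne
  have h3 : dist (h i) (h j) ≤ dist (h i) (d i) + dist (d i : V) (h j) := dist_triangle _ _ _
  rw [← dist_eq_norm] at h2
  have h4 := hd i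
  have h5 := hd j
  rw [← hij, dist_comm] at h5
  linarith

end general

/-! ### Part 2: the nonlinear section `c₀(G) → ℓ₂(G)` -/

section soft

open Classical

variable {Γ : Type} [Nonempty Γ]

/-- `ℓ_∞(Γ)` -/
abbrev LG (Γ : Type) : Type := lp (fun _ : Γ => ℝ) ⊤

/-- `ℓ₂(Γ)` -/
abbrev H2 (Γ : Type) : Type := lp (fun _ : Γ => ℝ) 2

/-- soft threshold -/
def soft (t m : ℝ) : ℝ := t - max (-m) (min m t)

theorem soft_zero_left {m : ℝ} (hm : 0 ≤ m) : soft 0 m = 0 := by
  unfold soft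
  rw [min_eq_right hm, max_eq_right (by linarith)]
  ring

theorem soft_zero_right (t : ℝ) : soft t 0 = t := by
  unfold soft
  rcases le_total t 0 with h | h
  · rw [min_eq_right h, neg_zero, max_eq_left h]; ring
  · rw [min_eq_left h, neg_zero, max_self]; ring

theorem lt_abs_of_soft_ne_zero {t m : ℝ} (h : soft t m ≠ 0) : m < |t| := by
  by_contra hcon
  push Not at hcon
  apply h
  have h1 := abs_le.1 hcon
  unfold soft
  rw [min_eq_right h1.2, max_eq_right h1.1]
  ring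

theorem abs_soft_sub_le {t t' m m' d : ℝ} (ht : |t - t'| ≤ d) (hm : |m - m'| ≤ d) :
    |soft t m - soft t' m'| ≤ 2 * d := by
  have h1 : |min m t - min m' t'| ≤ d := by
    refine (abs_min_sub_min_le_max m t m' t').trans (max_le hm ht)
  have h2 : |max (-m) (min m t) - max (-m') (min m' t')| ≤ d := by
    refine (abs_max_sub_max_le_max (-m) (min m t) (-m') (min m' t')).trans (max_le ?_ h1)
    rw [show -m - -m' = -(m - m') by ring, abs_neg]
    exact hm
  have h3 : soft t m - soft t' m' = (t - t') -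
      (max (-m) (min m t) - max (-m') (min m' t')) := by unfold soft; ring
  rw [h3]
  calc |(t - t') - (max (-m) (min m t) - max (-m') (min m' t'))| ≤ |t - t'| +
        |max (-m) (min m t) - max (-m') (min m' t')| := abs_sub _ _
    _ ≤ d + d := add_le_add ht h2
    _ = 2 * d := by ring

/-- `sup_{δ ∈ T} |y δ|` -/
def MM (T : Set Γ) (y : LG Γ) : ℝ := ⨆ δ : Γ, |T.indicator (⇑y) δ|

theorem abs_indicator_le (T : Set Γ) (y : LG Γ) (δ : Γ) : |T.indicator (⇑y) δ| ≤ ‖y‖ := by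
  by_cases h : δ ∈ T
  · rw [indicator_of_mem h]
    exact lp.norm_apply_le_norm (by simp) y δ
  · rw [indicator_of_notMem h, abs_zero]
    exact norm_nonneg _

theorem MM_bdd (T : Set Γ) (y : LG Γ) : BddAbove (range fun δ : Γ => |T.indicator (⇑y) δ|) :=
  ⟨‖y‖, by rintro _ ⟨δ, rfl⟩; exact abs_indicator_le T y δ⟩

theorem le_MM {T : Set Γ} (y : LG Γ) {δ : Γ} (h : δ ∈ T) : |y δ| ≤ MM T y := by
  have := le_ciSup (MM_bdd T y) δ
  rwa [indicator_of_mem h] at this

theorem MM_nonneg (T : Set Γ) (y : LG Γ) : 0 ≤ MM T y :=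
  (abs_nonneg _).trans (le_ciSup (MM_bdd T y) (Classical.arbitrary Γ))

theorem MM_le_add (T : Set Γ) (y y' : LG Γ) : MM T y ≤ MM T y' + ‖y - y'‖ := by
  refine ciSup_le (fun δ => ?_)
  have h1 := le_ciSup (MM_bdd T y') δ
  have h2 := abs_indicator_le T (y - y') δ
  have h3 : T.indicator (⇑y) δ = T.indicator (⇑y') δ + T.indicator (⇑(y - y')) δ := by
    by_cases h : δ ∈ T
    · rw [indicator_of_mem h, indicator_of_mem h, indicator_of_mem h, lp.coeFn_sub, Pi.sub_apply]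
      ring
    · rw [indicator_of_notMem h, indicator_of_notMem h, indicator_of_notMem h]
      ring
  rw [h3]
  calc _ ≤ |T.indicator (⇑y') δ| + |T.indicator (⇑(y - y')) δ| := abs_add_le _ _
    _ ≤ MM T y' + ‖y - y'‖ := add_le_add h1 h2

theorem abs_MM_sub_le (T : Set Γ) (y y' : LG Γ) : |MM T y - MM T y'| ≤ ‖y - y'‖ := by
  rw [abs_le]
  have h1 := MM_le_add T y y'
  have h2 := MM_le_add T y' y
  rw [norm_sub_rev] at h2
  constructor <;> linarith

theorem MM_eq_zero {T : Set Γ} {y : LG Γ} (h : ∀ δ ∈ T, y δ = 0) : MM T y = 0 := by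
  refine le_antisymm (ciSup_le (fun δ => ?_)) (MM_nonneg T y)
  by_cases hδ : δ ∈ T
  · rw [indicator_of_mem hδ, h δ hδ, abs_zero]
  · rw [indicator_of_notMem hδ, abs_zero]

/-- `sign(y_γ) (|y_γ| - sup_{δ ∈ G, δ ≠ γ} |y_δ|)⁺` for `γ ∈ G` -/
def phi (G : Set Γ) (y : LG Γ) (γ : Γ) : ℝ := soft (G.indicator (⇑y) γ) (MM (G \ {γ}) y)

theorem phi_unique {G : Set Γ} {y : LG Γ} {γ γ' : Γ} (h : phi G y γ ≠ 0) (h' : phi G y γ' ≠ 0) :
    γ = γ' := by
  by_contra hne
  have hG : γ ∈ G := by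
    by_contra hcon
    apply h
    rw [phi, indicator_of_notMem hcon, soft_zero_left (MM_nonneg _ _)]
  have hG' : γ' ∈ G := by
    by_contra hcon
    apply h'
    rw [phi, indicator_of_notMem hcon, soft_zero_left (MM_nonneg _ _)]
  have h1 := lt_abs_of_soft_ne_zero h
  have h2 := lt_abs_of_soft_ne_zero h'
  rw [indicator_of_mem hG] at h1
  rw [indicator_of_mem hG'] at h2
  have h3 : |y γ'| ≤ MM (G \ {γ}) y := le_MM y ⟨hG', fun h => hne (by simpa using h.symm)⟩
  have h4 : |y γ| ≤ MM (G \ {γ'}) y := le_MM y ⟨hG, fun h => hne (by simpa using h)⟩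
  linarith

theorem abs_phi_sub_le (G : Set Γ) (y y' : LG Γ) (γ : Γ) :
    |phi G y γ - phi G y' γ| ≤ 2 * ‖y - y'‖ := by
  refine abs_soft_sub_le ?_ (abs_MM_sub_le _ _ _)
  have h2 := abs_indicator_le G (y - y') γ
  have h3 : G.indicator (⇑y) γ - G.indicator (⇑y') γ = G.indicator (⇑(y - y')) γ := by
    by_cases h : γ ∈ G
    · rw [indicator_of_mem h, indicator_of_mem h, indicator_of_mem h, lp.coeFn_sub, Pi.sub_apply]
    · rw [indicator_of_notMem h, indicator_of_notMem h, indicator_of_notMem h]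
      ring
  rw [h3]
  exact h2

/-- the map `c₀(G) → ℓ₂(G)` -/
def SS (G : Set Γ) (y : LG Γ) : H2 Γ :=
  if h : ∃ γ, phi G y γ ≠ 0 then lp.single 2 h.choose (phi G y h.choose) else 0

theorem SS_of_ne {G : Set Γ} {y : LG Γ} {γ : Γ} (h : phi G y γ ≠ 0) :
    SS G y = lp.single 2 γ (phi G y γ) := by
  have hex : ∃ γ, phi G y γ ≠ 0 := ⟨γ, h⟩
  have h1 : hex.choose = γ := phi_unique hex.choose_spec h
  rw [SS, dif_pos hex, h1]

theorem SS_of_forall {G : Set Γ} {y : LG Γ} (h : ∀ γ, phi G y γ = 0) : SS G y = 0 := by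
  rw [SS, dif_neg]
  rintro ⟨γ, hγ⟩
  exact hγ (h γ)

theorem norm_SS_sub_le (G : Set Γ) (y y' : LG Γ) : ‖SS G y - SS G y'‖ ≤ 4 * ‖y - y'‖ := by
  have hn : 0 ≤ ‖y - y'‖ := norm_nonneg _
  have hs : ∀ (γ : Γ) (a : ℝ), ‖(lp.single 2 γ a : H2 Γ)‖ = |a| := by
    intro γ a
    rw [lp.norm_single (by norm_num)]
    rfl
  by_cases h : ∃ γ, phi G y γ ≠ 0
  · obtain ⟨γ, hγ⟩ := h
    rw [SS_of_ne hγ]
    by_cases h' : ∃ γ, phi G y' γ ≠ 0
    · obtain ⟨γ', hγ'⟩ := h'
      rw [SS_of_ne hγ']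
      by_cases he : γ = γ'
      · subst he
        rw [← lp.single_sub, hs]
        have := abs_phi_sub_le G y y' γ
        linarith
      · have h1 : phi G y' γ = 0 := by
          by_contra hcon
          exact he (phi_unique hcon hγ')
        have h2 : phi G y γ' = 0 := by
          by_contra hcon
          exact he (phi_unique hγ hcon)
        have h3 := abs_phi_sub_le G y y' γ
        have h4 := abs_phi_sub_le G y y' γ'
        rw [h1, sub_zero] at h3
        rw [h2, zero_sub, abs_neg] at h4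
        refine (norm_sub_le _ _).trans ?_
        rw [hs, hs]
        linarith
    · push Not at h'
      rw [SS_of_forall h', sub_zero, hs]
      have h3 := abs_phi_sub_le G y y' γ
      rw [h' γ, sub_zero] at h3
      linarith
  · push Not at h
    rw [SS_of_forall h, zero_sub, norm_neg]
    by_cases h' : ∃ γ, phi G y' γ ≠ 0
    · obtain ⟨γ', hγ'⟩ := h'
      rw [SS_of_ne hγ', hs]
      have h4 := abs_phi_sub_le G y y' γ'
      rw [h γ', zero_sub, abs_neg] at h4
      linarith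
    · push Not at h'
      rw [SS_of_forall h', norm_zero]
      positivity

theorem phi_zero (G : Set Γ) (γ : Γ) : phi G 0 γ = 0 := by
  have : G.indicator (⇑(0 : LG Γ)) γ = 0 := by
    by_cases h : γ ∈ G
    · rw [indicator_of_mem h]; rfl
    · rw [indicator_of_notMem h]
  rw [phi, this, soft_zero_left (MM_nonneg _ _)]

theorem SS_zero (G : Set Γ) : SS G (0 : LG Γ) = 0 := SS_of_forall (phi_zero G)

theorem norm_SS_le (G : Set Γ) (y : LG Γ) : ‖SS G y‖ ≤ 4 * ‖y‖ := by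
  have := norm_SS_sub_le G y 0
  rwa [SS_zero, sub_zero, sub_zero] at this

/-- if `y` vanishes on `G` except possibly at `γ ∈ G`, then `S(y) = y_γ e_γ` -/
theorem SS_of_single {G : Set Γ} {y : LG Γ} {γ : Γ} (hγ : γ ∈ G) (h : ∀ δ ∈ G, δ ≠ γ → y δ = 0) :
    SS G y = lp.single 2 γ (y γ) := by
  have h1 : phi G y γ = y γ := by
    rw [phi, indicator_of_mem hγ, MM_eq_zero, soft_zero_right]
    intro δ hδ
    exact h δ hδ.1 (by simpa using hδ.2)
  by_cases h0 : y γ = 0
  · rw [h0]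
    rw [SS_of_forall]
    · simp
    · intro δ
      have : G.indicator (⇑y) δ = 0 := by
        by_cases hδ : δ ∈ G
        · rw [indicator_of_mem hδ]
          by_cases hδγ : δ = γ
          · rw [hδγ]; exact h0
          · exact h δ hδ hδγ
        · rw [indicator_of_notMem hδ]
      rw [phi, this, soft_zero_left (MM_nonneg _ _)]
  · rw [SS_of_ne (γ := γ) (by rw [h1]; exact h0), h1]

theorem SS_of_none {G : Set Γ} {y : LG Γ} (h : ∀ δ ∈ G, y δ = 0) :
    SS G y = 0 := by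
  refine SS_of_forall (fun δ => ?_)
  have : G.indicator (⇑y) δ = 0 := by
    by_cases hδ : δ ∈ G
    · rw [indicator_of_mem hδ]
      exact h δ hδ
    · rw [indicator_of_notMem hδ]
  rw [phi, this, soft_zero_left (MM_nonneg _ _)]

end soft

/-! ### Part 3: the two spaces -/

section spaces

open Classical

variable {Γ N : Type}

/-- `ℓ_∞(N; ℓ₂(Γ))` -/
abbrev LN (N Γ : Type) : Type := lp (fun _ : N => H2 Γ) ⊤

/-- the ambient space -/
abbrev BB (N Γ : Type) : Type := LN N Γ × LG Γ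

/-- unit vectors of `ℓ₂(Γ)` -/
def ee (γ : Γ) : H2 Γ := lp.single 2 γ 1

theorem smul_ee (c : ℝ) (γ : Γ) : c • ee γ = lp.single 2 γ c := by
  rw [ee, ← lp.single_smul, smul_eq_mul, mul_one]

theorem inner_ee_self (γ : Γ) : inner ℝ (ee γ) (ee γ) = 1 := by
  rw [ee, lp.inner_single_left, lp.single_apply_self]
  simp

theorem inner_ee_ne {γ δ : Γ} (h : γ ≠ δ) : inner ℝ (ee γ) (ee δ) = 0 := by
  rw [ee, ee, lp.inner_single_left, lp.single_apply_ne _ _ _ h]
  simp

theorem norm_ee (γ : Γ) : ‖ee γ‖ = 1 := by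
  rw [ee, lp.norm_single (by norm_num)]
  simp

theorem norm_sq_sum_ee {J : Type*} (F : Finset J) (k : J → Γ) (hk : Set.InjOn k F) (c : J → ℝ) :
    ‖∑ i ∈ F, c i • ee (k i)‖ ^ 2 = ∑ i ∈ F, c i ^ 2 := by
  induction F using Finset.induction_on with
  | empty => simp
  | insert a F ha ih =>
    rw [Finset.sum_insert ha, Finset.sum_insert ha, norm_add_sq_real, ih (hk.mono (by simp)),
      norm_smul, norm_ee, inner_sum]
    have : ∀ i ∈ F, inner ℝ (c a • ee (k a)) (c i • ee (k i)) = 0 := by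
      intro i hi
      have hne : k a ≠ k i := by
        intro heq
        have : a = i := hk (by simp) (by simp [hi]) heq
        exact ha (this ▸ hi)
      rw [inner_smul_left, inner_smul_right, inner_ee_ne hne]
      simp
    rw [Finset.sum_eq_zero this]
    simp

theorem norm_LN_le {z : LN N Γ} {C : ℝ} (hC : 0 ≤ C) (h : ∀ n, ‖z n‖ ≤ C) : ‖z‖ ≤ C :=
  lp.norm_le_of_forall_le hC h

/-- `1_{n} ⊗ e_γ` -/
def gz (i : N × Γ) : BB N Γ := (lp.single ⊤ i.1 (ee i.2), 0)

theorem upper_gz : UpperL2 (gz : N × Γ → BB N Γ) := by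
  intro F c
  have h2 : (∑ i ∈ F, c i • (gz i : BB N Γ)).2 = 0 := by
    rw [Prod.snd_sum]
    exact Finset.sum_eq_zero (fun i _ => by simp [gz])
  have h1 : (∑ i ∈ F, c i • (gz i : BB N Γ)).1 = ∑ i ∈ F, c i • lp.single ⊤ i.1 (ee i.2) := by
    rw [Prod.fst_sum]
    rfl
  rw [Prod.norm_def, h1, h2, norm_zero]
  refine max_le ?_ (Real.sqrt_nonneg _)
  refine norm_LN_le (Real.sqrt_nonneg _) (fun n => ?_)
  refine Real.le_sqrt_of_sq_le ?_
  have h3 : (∑ i ∈ F, c i • (lp.single ⊤ i.1 (ee i.2) : LN N Γ)) n =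
      ∑ i ∈ F.filter (fun i => i.1 = n), c i • ee i.2 := by
    rw [lp.coeFn_sum, Finset.sum_apply, Finset.sum_filter]
    refine Finset.sum_congr rfl (fun i _ => ?_)
    rw [lp.coeFn_smul, Pi.smul_apply]
    by_cases h : i.1 = n
    · subst h
      rw [lp.single_apply_self, if_pos rfl]
    · rw [lp.single_apply_ne _ _ _ (Ne.symm h), if_neg h, smul_zero]
  rw [h3, norm_sq_sum_ee]
  · exact Finset.sum_le_sum_of_subset_of_nonneg (Finset.filter_subset _ _)
      (fun i _ _ => sq_nonneg _)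
  · intro i hi j hj hij
    simp only [Finset.coe_filter, mem_setOf_eq] at hi hj
    exact Prod.ext (hi.2.trans hj.2.symm) hij

variable (A : Γ → Set N)

/-- `1_{A γ} ⊗ e_γ` -/
def xg (γ : Γ) : LN N Γ :=
  ⟨fun n => if n ∈ A γ then ee γ else 0, memℓp_infty ⟨1, by
    rintro _ ⟨n, rfl⟩
    by_cases h : n ∈ A γ
    · simp only [h, if_true, norm_ee]; exact le_refl _
    · simp only [h, if_false, norm_zero]; exact zero_le_one⟩⟩

theorem xg_apply (γ : Γ) (n : N) : xg A γ n = if n ∈ A γ then ee γ else 0 := rfl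

/-- generators of `X` -/
def gx (γ : Γ) : BB N Γ := (xg A γ, lp.single ⊤ γ 1)

/-- generators of the `c₀(Γ)` part of `W` -/
def gw (γ : Γ) : BB N Γ := (0, lp.single ⊤ γ 1)

theorem norm_dg_le (F : Finset Γ) (c : Γ → ℝ) :
    ‖∑ i ∈ F, c i • (lp.single ⊤ i (1 : ℝ) : LG Γ)‖ ≤ Real.sqrt (∑ i ∈ F, c i ^ 2) := by
  refine lp.norm_le_of_forall_le (Real.sqrt_nonneg _) (fun n => ?_)
  refine Real.le_sqrt_of_sq_le ?_
  rw [lp.coeFn_sum, Finset.sum_apply]
  have h1 : ∀ i ∈ F, (⇑(c i • (lp.single ⊤ i (1 : ℝ) : LG Γ))) n = if i = n then c i else 0 := by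
    intro i _
    rw [lp.coeFn_smul, Pi.smul_apply]
    by_cases h : i = n
    · subst h
      rw [lp.single_apply_self, if_pos rfl, smul_eq_mul, mul_one]
    · rw [lp.single_apply_ne _ _ _ (Ne.symm h), if_neg h, smul_zero]
  rw [Finset.sum_congr rfl h1, Finset.sum_ite_eq']
  by_cases h : n ∈ F
  · rw [if_pos h, Real.norm_eq_abs, sq_abs]
    exact Finset.single_le_sum (f := fun i => c i ^ 2) (fun i _ => sq_nonneg _) h
  · rw [if_neg h]
    simp only [norm_zero, ne_eq, OfNat.ofNat_ne_zero, not_false_eq_true, zero_pow]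
    exact Finset.sum_nonneg (fun i _ => sq_nonneg _)

theorem sum_xg_apply (F : Finset Γ) (c : Γ → ℝ) (n : N) :
    (∑ i ∈ F, c i • xg A i) n = ∑ i ∈ F.filter (fun i => n ∈ A i), c i • ee i := by
  rw [lp.coeFn_sum, Finset.sum_apply, Finset.sum_filter]
  refine Finset.sum_congr rfl (fun i _ => ?_)
  rw [lp.coeFn_smul, Pi.smul_apply, xg_apply]
  by_cases h : n ∈ A i
  · rw [if_pos h, if_pos h]
  · rw [if_neg h, if_neg h, smul_zero]

theorem upper_gx : UpperL2 (gx A) := by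
  intro F c
  have h2 : (∑ i ∈ F, c i • gx A i).2 = ∑ i ∈ F, c i • (lp.single ⊤ i (1 : ℝ) : LG Γ) := by
    rw [Prod.snd_sum]
    rfl
  have h1 : (∑ i ∈ F, c i • gx A i).1 = ∑ i ∈ F, c i • xg A i := by
    rw [Prod.fst_sum]
    rfl
  rw [Prod.norm_def, h1, h2]
  refine max_le ?_ (norm_dg_le F c)
  refine norm_LN_le (Real.sqrt_nonneg _) (fun n => ?_)
  refine Real.le_sqrt_of_sq_le ?_
  rw [sum_xg_apply, norm_sq_sum_ee _ _ (fun i _ j _ h => h)]
  exact Finset.sum_le_sum_of_subset_of_nonneg (Finset.filter_subset _ _)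
    (fun i _ _ => sq_nonneg _)

theorem upper_gw : UpperL2 (gw : Γ → BB N Γ) := by
  intro F c
  have h2 : (∑ i ∈ F, c i • (gw i : BB N Γ)).2 =
      ∑ i ∈ F, c i • (lp.single ⊤ i (1 : ℝ) : LG Γ) := by
    rw [Prod.snd_sum]
    rfl
  have h1 : (∑ i ∈ F, c i • (gw i : BB N Γ)).1 = 0 := by
    rw [Prod.fst_sum]
    exact Finset.sum_eq_zero (fun i _ => by simp [gw])
  rw [Prod.norm_def, h1, h2, norm_zero]
  exact max_le (Real.sqrt_nonneg _) (norm_dg_le F c)

/-- `X` -/
def XX : Submodule ℝ (BB N Γ) :=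
  (Submodule.span ℝ (range (Sum.elim gz (gx A)))).topologicalClosure

/-- `W` -/
def WW (N Γ : Type) : Submodule ℝ (BB N Γ) :=
  (Submodule.span ℝ (range (Sum.elim gz (gw : Γ → BB N Γ)))).topologicalClosure

/-- `c₀(N; ℓ₂(Γ))` -/
def ZZ (N Γ : Type) : Submodule ℝ (BB N Γ) :=
  (Submodule.span ℝ (range (gz : N × Γ → BB N Γ))).topologicalClosure

theorem ZZ_le_XX : ZZ N Γ ≤ XX A := by
  refine Submodule.topologicalClosure_mono (Submodule.span_mono ?_)
  rintro _ ⟨i, rfl⟩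
  exact ⟨Sum.inl i, rfl⟩

theorem ZZ_le_WW : ZZ N Γ ≤ WW N Γ := by
  refine Submodule.topologicalClosure_mono (Submodule.span_mono ?_)
  rintro _ ⟨i, rfl⟩
  exact ⟨Sum.inl i, rfl⟩

/-- `1_{n} ⊗ h ∈ Z` -/
theorem single_mem_ZZ (n : N) (h : H2 Γ) : ((lp.single ⊤ n h : LN N Γ), (0 : LG Γ)) ∈ ZZ N Γ := by
  have h1 : h ∈ closure ((Submodule.span ℝ (range (ee : Γ → H2 Γ)) : Submodule ℝ (H2 Γ)) :
      Set (H2 Γ)) := by
    have h2 : HasSum (fun i => lp.single 2 i (h i)) h := lp.hasSum_single (by norm_num) h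
    refine mem_closure_of_tendsto h2 (Filter.Eventually.of_forall (fun F => ?_))
    refine Submodule.sum_mem _ (fun i _ => ?_)
    rw [← smul_ee]
    exact Submodule.smul_mem _ _ (Submodule.subset_span ⟨i, rfl⟩)
  let L : H2 Γ →ₗ[ℝ] BB N Γ :=
    { toFun := fun h => (lp.single ⊤ n h, 0)
      map_add' := by
        intro a b
        rw [lp.single_add, Prod.mk_add_mk, add_zero]
      map_smul' := by
        intro c a
        rw [lp.single_smul, RingHom.id_apply, Prod.smul_mk, smul_zero] }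
  have hLn : ∀ h, ‖L h‖ ≤ 1 * ‖h‖ := by
    intro h
    change ‖((lp.single ⊤ n h : LN N Γ), (0 : LG Γ))‖ ≤ 1 * ‖h‖
    rw [Prod.norm_def, lp.norm_single (by simp), norm_zero, one_mul]
    exact max_le le_rfl (norm_nonneg _)
  have hLc : Continuous L := (LinearMap.mkContinuous L 1 hLn).continuous
  have h3 : L h ∈ closure ((Submodule.span ℝ (range (gz : N × Γ → BB N Γ)) :
      Submodule ℝ (BB N Γ)) : Set (BB N Γ)) := by
    refine map_mem_closure hLc h1 ?_
    intro x hx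
    refine Submodule.span_induction (p := fun x _ => L x ∈ (Submodule.span ℝ
      (range (gz : N × Γ → BB N Γ)) : Submodule ℝ (BB N Γ))) ?_ ?_ ?_ ?_ hx
    · rintro _ ⟨i, rfl⟩
      exact Submodule.subset_span ⟨(n, i), rfl⟩
    · rw [map_zero]; exact Submodule.zero_mem _
    · intro x y _ _ hx hy
      rw [map_add]; exact Submodule.add_mem _ hx hy
    · intro c x _ hx
      rw [map_smul]; exact Submodule.smul_mem _ _ hx
  exact h3

/-- finitely supported functions are in `Z` -/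
theorem finite_mem_ZZ (z : LN N Γ) (T : Set N) (hT : T.Finite) (hz : ∀ n ∉ T, z n = 0) :
    (z, (0 : LG Γ)) ∈ ZZ N Γ := by
  have h1 : z = ∑ n ∈ hT.toFinset, (lp.single ⊤ n (z n) : LN N Γ) := by
    refine lp.ext ?_
    funext m
    rw [lp.coeFn_sum, Finset.sum_apply]
    by_cases hm : m ∈ T
    · rw [Finset.sum_eq_single_of_mem m (hT.mem_toFinset.2 hm)]
      · rw [lp.single_apply_self]
      · intro n _ hne
        rw [lp.single_apply_ne _ _ _ (Ne.symm hne)]
    · rw [hz m hm, Finset.sum_eq_zero]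
      intro n hn
      have hne : m ≠ n := by
        rintro rfl
        exact hm (hT.mem_toFinset.1 hn)
      rw [lp.single_apply_ne _ _ _ hne]
  have h2 : (z, (0 : LG Γ)) = ∑ n ∈ hT.toFinset, ((lp.single ⊤ n (z n) : LN N Γ), (0 : LG Γ)) := by
    refine Prod.ext ?_ ?_
    · rw [Prod.fst_sum]
      exact h1
    · rw [Prod.snd_sum]
      simp
  rw [h2]
  exact Submodule.sum_mem _ (fun n _ => single_mem_ZZ n (z n))

end spaces

/-! ### Part 4: the Lipschitz homeomorphism -/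

section homeo

open Classical

variable {Γ N : Type} [Nonempty Γ] (A : Γ → Set N)

/-- `G_n = {γ : n ∈ A γ}` -/
def GG (n : N) : Set Γ := {γ | n ∈ A γ}

/-- the nonlinear section -/
def ss (y : LG Γ) : LN N Γ :=
  ⟨fun n => SS (GG A n) y, memℓp_infty ⟨4 * ‖y‖, by rintro _ ⟨n, rfl⟩; exact norm_SS_le _ _⟩⟩

theorem ss_apply (y : LG Γ) (n : N) : ss A y n = SS (GG A n) y := rfl

theorem norm_ss_sub_le (y y' : LG Γ) : ‖ss A y - ss A y'‖ ≤ 4 * ‖y - y'‖ :=
  norm_LN_le (by positivity) (fun n => norm_SS_sub_le _ _ _)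

/-- the shear -/
def FF : BB N Γ ≃ BB N Γ where
  toFun p := (p.1 - ss A p.2, p.2)
  invFun p := (p.1 + ss A p.2, p.2)
  left_inv p := by simp
  right_inv p := by simp

theorem FF_lip : LipschitzWith 5 (FF A) := by
  refine LipschitzWith.of_dist_le_mul (fun p q => ?_)
  rw [dist_eq_norm, dist_eq_norm, Prod.norm_def]
  have h1 : ‖p.1 - q.1‖ ≤ ‖p - q‖ := norm_fst_le (p - q)
  have h2 : ‖p.2 - q.2‖ ≤ ‖p - q‖ := norm_snd_le (p - q)
  have h3 := norm_ss_sub_le A p.2 q.2
  have h0 : 0 ≤ ‖p - q‖ := norm_nonneg _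
  refine max_le ?_ ?_
  · change ‖(p.1 - ss A p.2) - (q.1 - ss A q.2)‖ ≤ 5 * ‖p - q‖
    have h4 : (p.1 - ss A p.2) - (q.1 - ss A q.2) = (p.1 - q.1) - (ss A p.2 - ss A q.2) := by abel
    rw [h4]
    refine (norm_sub_le _ _).trans ?_
    linarith
  · change ‖p.2 - q.2‖ ≤ 5 * ‖p - q‖
    linarith

theorem FF_symm_lip : LipschitzWith 5 (FF A).symm := by
  refine LipschitzWith.of_dist_le_mul (fun p q => ?_)
  rw [dist_eq_norm, dist_eq_norm, Prod.norm_def]
  have h1 : ‖p.1 - q.1‖ ≤ ‖p - q‖ := norm_fst_le (p - q)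
  have h2 : ‖p.2 - q.2‖ ≤ ‖p - q‖ := norm_snd_le (p - q)
  have h3 := norm_ss_sub_le A p.2 q.2
  have h0 : 0 ≤ ‖p - q‖ := norm_nonneg _
  refine max_le ?_ ?_
  · change ‖(p.1 + ss A p.2) - (q.1 + ss A q.2)‖ ≤ 5 * ‖p - q‖
    have h4 : (p.1 + ss A p.2) - (q.1 + ss A q.2) = (p.1 - q.1) + (ss A p.2 - ss A q.2) := by abel
    rw [h4]
    refine (norm_add_le _ _).trans ?_
    linarith
  · change ‖p.2 - q.2‖ ≤ 5 * ‖p - q‖
    linarith

theorem dg_sum_apply (F : Finset Γ) (c : Γ → ℝ) (δ : Γ) :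
    (∑ i ∈ F, c i • (lp.single ⊤ i (1 : ℝ) : LG Γ)) δ = if δ ∈ F then c δ else 0 := by
  rw [lp.coeFn_sum, Finset.sum_apply]
  have h1 : ∀ i ∈ F, (⇑(c i • (lp.single ⊤ i (1 : ℝ) : LG Γ))) δ = if i = δ then c i else 0 := by
    intro i _
    rw [lp.coeFn_smul, Pi.smul_apply]
    by_cases h : i = δ
    · subst h
      rw [lp.single_apply_self, if_pos rfl, smul_eq_mul, mul_one]
    · rw [lp.single_apply_ne _ _ _ (Ne.symm h), if_neg h, smul_zero]
  rw [Finset.sum_congr rfl h1, Finset.sum_ite_eq']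

/-- the exceptional finite set -/
def badSet (F : Finset Γ) : Set N := ⋃ i ∈ F, ⋃ j ∈ F, if i = j then ∅ else A i ∩ A j

theorem badSet_finite (hA : ∀ i j, i ≠ j → (A i ∩ A j).Finite) (F : Finset Γ) :
    (badSet A F).Finite := by
  refine Set.Finite.biUnion F.finite_toSet (fun i _ => ?_)
  refine Set.Finite.biUnion F.finite_toSet (fun j _ => ?_)
  by_cases h : i = j
  · simp [h]
  · rw [if_neg h]; exact hA i j h

theorem eq_of_notMem_badSet {F : Finset Γ} {n : N} (hn : n ∉ badSet A F) {i j : Γ} (hi : i ∈ F)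
    (hj : j ∈ F) (hni : n ∈ A i) (hnj : n ∈ A j) : i = j := by
  by_contra hne
  apply hn
  refine mem_iUnion₂.2 ⟨i, hi, mem_iUnion₂.2 ⟨j, hj, ?_⟩⟩
  rw [if_neg hne]
  exact ⟨hni, hnj⟩

theorem sum_xg_of_mem {F : Finset Γ} (c : Γ → ℝ) {n : N} (hn : n ∉ badSet A F) {γ : Γ}
    (hγ : γ ∈ F) (hnγ : n ∈ A γ) : (∑ i ∈ F, c i • xg A i) n = c γ • ee γ := by
  rw [sum_xg_apply]
  have : F.filter (fun i => n ∈ A i) = {γ} := by
    ext i
    simp only [Finset.mem_filter, Finset.mem_singleton]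
    constructor
    · rintro ⟨hi, hni⟩
      exact eq_of_notMem_badSet A hn hi hγ hni hnγ
    · rintro rfl
      exact ⟨hγ, hnγ⟩
  rw [this, Finset.sum_singleton]

theorem sum_xg_of_notMem {F : Finset Γ} (c : Γ → ℝ) {n : N} (h : ∀ γ ∈ F, n ∉ A γ) :
    (∑ i ∈ F, c i • xg A i) n = 0 := by
  rw [sum_xg_apply, Finset.filter_false_of_mem h, Finset.sum_empty]

theorem ss_sum (F : Finset Γ) (c : Γ → ℝ) {n : N} (hn : n ∉ badSet A F) :
    ss A (∑ i ∈ F, c i • (lp.single ⊤ i (1 : ℝ) : LG Γ)) n = (∑ i ∈ F, c i • xg A i) n := by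
  rw [ss_apply]
  by_cases h : ∃ γ ∈ F, n ∈ A γ
  · obtain ⟨γ, hγ, hnγ⟩ := h
    rw [sum_xg_of_mem A c hn hγ hnγ, SS_of_single (γ := γ) hnγ, dg_sum_apply, if_pos hγ, smul_ee]
    intro δ hδ hne
    rw [dg_sum_apply, if_neg]
    intro hδF
    exact hne (eq_of_notMem_badSet A hn hδF hγ hδ hnγ)
  · push Not at h
    rw [sum_xg_of_notMem A c h, SS_of_none]
    intro δ hδ
    rw [dg_sum_apply, if_neg]
    intro hδF
    exact h δ hδF hδ

theorem key_mem (hA : ∀ i j, i ≠ j → (A i ∩ A j).Finite) (F : Finset Γ) (c : Γ → ℝ) :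
    ((∑ i ∈ F, c i • xg A i) - ss A (∑ i ∈ F, c i • (lp.single ⊤ i (1 : ℝ) : LG Γ)), (0 : LG Γ)) ∈
      ZZ N Γ := by
  refine finite_mem_ZZ _ (badSet A F) (badSet_finite A hA F) (fun n hn => ?_)
  rw [lp.coeFn_sub, Pi.sub_apply, ss_sum A F c hn, sub_self]

theorem mem_span_elim {J : Type} (g : J → BB N Γ) {p : BB N Γ}
    (hp : p ∈ Submodule.span ℝ (range (Sum.elim (gz : N × Γ → BB N Γ) g))) :
    ∃ p0 ∈ Submodule.span ℝ (range (gz : N × Γ → BB N Γ)), ∃ (F : Finset J) (c : J → ℝ),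
      p = p0 + ∑ i ∈ F, c i • g i := by
  rw [Set.Sum.elim_range, Submodule.span_union, Submodule.mem_sup] at hp
  obtain ⟨p0, hp0, q, hq, rfl⟩ := hp
  obtain ⟨c, rfl⟩ := (Finsupp.mem_span_range_iff_exists_finsupp).1 hq
  exact ⟨p0, hp0, c.support, c, rfl⟩

theorem span_gz_facts {p0 : BB N Γ} (hp0 : p0 ∈ Submodule.span ℝ (range (gz : N × Γ → BB N Γ))) :
    p0.2 = 0 ∧ ∃ T : Set N, T.Finite ∧ ∀ n ∉ T, p0.1 n = 0 := by
  refine Submodule.span_induction (p := fun p0 _ => p0.2 = 0 ∧ ∃ T : Set N, T.Finite ∧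
    ∀ n ∉ T, p0.1 n = 0) ?_ ?_ ?_ ?_ hp0
  · rintro _ ⟨i, rfl⟩
    refine ⟨rfl, {i.1}, finite_singleton _, fun n hn => ?_⟩
    rw [mem_singleton_iff] at hn
    exact lp.single_apply_ne _ _ _ hn
  · exact ⟨rfl, ∅, finite_empty, fun n _ => rfl⟩
  · rintro x y _ _ ⟨hx, T, hT, hT'⟩ ⟨hy, T2, hT2, hT2'⟩
    refine ⟨by rw [Prod.snd_add, hx, hy, add_zero], T ∪ T2, hT.union hT2, fun n hn => ?_⟩
    rw [Prod.fst_add, lp.coeFn_add, Pi.add_apply, hT' n (fun h => hn (Or.inl h)),
      hT2' n (fun h => hn (Or.inr h)), add_zero]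
  · rintro c x _ ⟨hx, T, hT, hT'⟩
    refine ⟨by rw [Prod.smul_snd, hx, smul_zero], T, hT, fun n hn => ?_⟩
    rw [Prod.smul_fst, lp.coeFn_smul, Pi.smul_apply, hT' n hn, smul_zero]

theorem span_gz_le : Submodule.span ℝ (range (gz : N × Γ → BB N Γ)) ≤ ZZ N Γ :=
  Submodule.le_topologicalClosure _

theorem gw_mem (γ : Γ) : (gw γ : BB N Γ) ∈ WW N Γ :=
  Submodule.le_topologicalClosure _ (Submodule.subset_span ⟨Sum.inr γ, rfl⟩)

theorem gx_mem (γ : Γ) : gx A γ ∈ XX A :=
  Submodule.le_topologicalClosure _ (Submodule.subset_span ⟨Sum.inr γ, rfl⟩)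

theorem sum_gx (F : Finset Γ) (c : Γ → ℝ) : ∑ i ∈ F, c i • gx A i =
    (∑ i ∈ F, c i • xg A i, ∑ i ∈ F, c i • (lp.single ⊤ i (1 : ℝ) : LG Γ)) := by
  refine Prod.ext ?_ ?_
  · rw [Prod.fst_sum]; rfl
  · rw [Prod.snd_sum]; rfl

theorem sum_gw (F : Finset Γ) (c : Γ → ℝ) : ∑ i ∈ F, c i • (gw i : BB N Γ) =
    (0, ∑ i ∈ F, c i • (lp.single ⊤ i (1 : ℝ) : LG Γ)) := by
  refine Prod.ext ?_ ?_
  · rw [Prod.fst_sum]
    exact Finset.sum_eq_zero (fun i _ => by simp [gw])
  · rw [Prod.snd_sum]; rfl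

theorem FF_mem (hA : ∀ i j, i ≠ j → (A i ∩ A j).Finite) {p : BB N Γ} (hp : p ∈ XX A) :
    FF A p ∈ WW N Γ := by
  have h1 : FF A p ∈ closure (WW N Γ : Set (BB N Γ)) := by
    refine map_mem_closure (FF_lip A).continuous hp ?_
    intro q hq
    obtain ⟨p0, hp0, F, c, rfl⟩ := mem_span_elim (gx A) hq
    have hz := span_gz_facts hp0
    have h2 : FF A (p0 + ∑ i ∈ F, c i • gx A i) = p0 +
        ((∑ i ∈ F, c i • xg A i) - ss A (∑ i ∈ F, c i • (lp.single ⊤ i (1 : ℝ) : LG Γ)),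
          (0 : LG Γ)) + ∑ i ∈ F, c i • (gw i : BB N Γ) := by
      rw [sum_gx, sum_gw]
      refine Prod.ext ?_ ?_
      · change p0.1 + _ - ss A (p0.2 + _) = p0.1 + _ + 0
        rw [hz.1, zero_add, add_zero]
        simp only
        abel
      · change p0.2 + _ = p0.2 + 0 + _
        rw [add_zero]
    rw [h2]
    refine Submodule.add_mem _ (Submodule.add_mem _ (ZZ_le_WW (span_gz_le hp0))
      (ZZ_le_WW (key_mem A hA F c))) (Submodule.sum_mem _ (fun i _ => ?_))
    exact Submodule.smul_mem _ _ (gw_mem i)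
  have h3 : IsClosed (WW N Γ : Set (BB N Γ)) := Submodule.isClosed_topologicalClosure _
  rwa [h3.closure_eq] at h1

theorem FF_symm_mem (hA : ∀ i j, i ≠ j → (A i ∩ A j).Finite) {p : BB N Γ} (hp : p ∈ WW N Γ) :
    (FF A).symm p ∈ XX A := by
  have h1 : (FF A).symm p ∈ closure (XX A : Set (BB N Γ)) := by
    refine map_mem_closure (FF_symm_lip A).continuous hp ?_
    intro q hq
    obtain ⟨p0, hp0, F, c, rfl⟩ := mem_span_elim (gw : Γ → BB N Γ) hq
    have hz := span_gz_facts hp0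
    have h2 : (FF A).symm (p0 + ∑ i ∈ F, c i • (gw i : BB N Γ)) = p0 -
        ((∑ i ∈ F, c i • xg A i) - ss A (∑ i ∈ F, c i • (lp.single ⊤ i (1 : ℝ) : LG Γ)),
          (0 : LG Γ)) + ∑ i ∈ F, c i • gx A i := by
      rw [sum_gx, sum_gw]
      refine Prod.ext ?_ ?_
      · change p0.1 + 0 + ss A (p0.2 + _) = p0.1 - _ + _
        rw [hz.1, zero_add, add_zero]
        simp only
        abel
      · change p0.2 + _ = p0.2 - 0 + _
        rw [sub_zero]
    rw [h2]
    refine Submodule.add_mem _ (Submodule.sub_mem _ (ZZ_le_XX A (span_gz_le hp0))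
      (ZZ_le_XX A (key_mem A hA F c))) (Submodule.sum_mem _ (fun i _ => ?_))
    exact Submodule.smul_mem _ _ (gx_mem A i)
  have h3 : IsClosed (XX A : Set (BB N Γ)) := Submodule.isClosed_topologicalClosure _
  rwa [h3.closure_eq] at h1

/-- the Lipschitz homeomorphism -/
def EE (hA : ∀ i j, i ≠ j → (A i ∩ A j).Finite) : XX A ≃ WW N Γ where
  toFun p := ⟨FF A p, FF_mem A hA p.2⟩
  invFun p := ⟨(FF A).symm p, FF_symm_mem A hA p.2⟩
  left_inv p := by
    ext1
    exact (FF A).symm_apply_apply p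
  right_inv p := by
    ext1
    exact (FF A).apply_symm_apply p

theorem EE_lip (hA : ∀ i j, i ≠ j → (A i ∩ A j).Finite) : LipschitzWith 5 (EE A hA) :=
  fun p q => FF_lip A p q

theorem EE_symm_lip (hA : ∀ i j, i ≠ j → (A i ∩ A j).Finite) :
    LipschitzWith 5 (EE A hA).symm :=
  fun p q => FF_symm_lip A p q

end homeo

/-! ### Part 5: the spaces are not isomorphic -/

section noniso

open Classical

variable {Γ N : Type} [Nonempty Γ] (A : Γ → Set N)

theorem norm_snd_le_fst (hinf : ∀ i, (A i).Infinite) (hA : ∀ i j, i ≠ j → (A i ∩ A j).Finite)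
    {p : BB N Γ} (hp : p ∈ XX A) : ‖p.2‖ ≤ ‖p.1‖ := by
  have hcl : IsClosed {p : BB N Γ | ‖p.2‖ ≤ ‖p.1‖} :=
    isClosed_le (by fun_prop) (by fun_prop)
  have hsub : (Submodule.span ℝ (range (Sum.elim (gz : N × Γ → BB N Γ) (gx A))) :
      Set (BB N Γ)) ⊆ {p : BB N Γ | ‖p.2‖ ≤ ‖p.1‖} := by
    intro q hq
    obtain ⟨p0, hp0, F, c, rfl⟩ := mem_span_elim (gx A) hq
    obtain ⟨hz, T, hT, hT'⟩ := span_gz_facts hp0
    rw [mem_setOf_eq, sum_gx]
    refine lp.norm_le_of_forall_le (norm_nonneg _) (fun γ => ?_)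
    have h1 : (p0 + ((∑ i ∈ F, c i • xg A i : LN N Γ),
        ∑ i ∈ F, c i • (lp.single ⊤ i (1 : ℝ) : LG Γ))).2 γ = if γ ∈ F then c γ else 0 := by
      rw [Prod.snd_add, hz, zero_add, dg_sum_apply]
    rw [h1]
    by_cases hγ : γ ∈ F
    · rw [if_pos hγ]
      have h2 : (A γ \ (T ∪ badSet A F)).Nonempty :=
        ((hinf γ).sdiff (hT.union (badSet_finite A hA F))).nonempty
      obtain ⟨n, hn, hn'⟩ := h2
      have h3 : (p0 + ((∑ i ∈ F, c i • xg A i : LN N Γ),
          ∑ i ∈ F, c i • (lp.single ⊤ i (1 : ℝ) : LG Γ))).1 n = c γ • ee γ := by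
        rw [Prod.fst_add, lp.coeFn_add, Pi.add_apply, hT' n (fun h => hn' (Or.inl h)), zero_add]
        exact sum_xg_of_mem A c (fun h => hn' (Or.inr h)) hγ hn
      have h4 := lp.norm_apply_le_norm (p := ⊤) (by simp) (p0 + ((∑ i ∈ F, c i • xg A i : LN N Γ),
          ∑ i ∈ F, c i • (lp.single ⊤ i (1 : ℝ) : LG Γ))).1 n
      rw [h3, norm_smul, norm_ee, mul_one] at h4
      exact h4
    · rw [if_neg hγ, norm_zero]
      exact norm_nonneg _
  exact closure_minimal hsub hcl hp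

theorem exists_signs {H : Type*} [NormedAddCommGroup H] [InnerProductSpace ℝ H] (u : Γ → H)
    (F : Finset Γ) : ∃ ε : Γ → ℝ, (∀ γ, |ε γ| ≤ 1) ∧
      ∑ γ ∈ F, ‖u γ‖ ^ 2 ≤ ‖∑ γ ∈ F, ε γ • u γ‖ ^ 2 := by
  induction F using Finset.induction_on with
  | empty => exact ⟨fun _ => 0, fun _ => by simp, by simp⟩
  | insert a F ha ih =>
    obtain ⟨ε, hε, hs⟩ := ih
    set S := ∑ γ ∈ F, ε γ • u γ with hS
    have hpar : ‖S + u a‖ ^ 2 + ‖S - u a‖ ^ 2 = 2 * (‖S‖ ^ 2 + ‖u a‖ ^ 2) := by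
      rw [norm_add_sq_real, norm_sub_sq_real]; ring
    have hupd : ∀ t : ℝ, ∑ γ ∈ F, (Function.update ε a t) γ • u γ = S := by
      intro t
      refine Finset.sum_congr rfl (fun γ hγ => ?_)
      rw [Function.update_of_ne]
      rintro rfl
      exact ha hγ
    have hupd' : ∀ t : ℝ, |t| ≤ 1 → ∀ γ, |(Function.update ε a t) γ| ≤ 1 := by
      intro t ht γ
      by_cases h : γ = a
      · subst h; rwa [Function.update_self]
      · rw [Function.update_of_ne h]; exact hε γ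
    rcases le_total (‖S - u a‖ ^ 2) (‖S + u a‖ ^ 2) with h | h
    · refine ⟨Function.update ε a 1, hupd' 1 (by simp), ?_⟩
      rw [Finset.sum_insert ha, Finset.sum_insert ha, hupd, Function.update_self, one_smul,
        add_comm (u a)]
      linarith
    · refine ⟨Function.update ε a (-1), hupd' (-1) (by simp), ?_⟩
      rw [Finset.sum_insert ha, Finset.sum_insert ha, hupd, Function.update_self, neg_smul,
        one_smul, add_comm (-u a), ← sub_eq_add_neg]
      linarith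

/-- generator of `W` as an element -/
def gw' (γ : Γ) : WW N Γ := ⟨gw γ, gw_mem γ⟩

theorem norm_sum_gw' (F : Finset Γ) (ε : Γ → ℝ) (hε : ∀ γ, |ε γ| ≤ 1) :
    ‖∑ γ ∈ F, ε γ • (gw' γ : WW N Γ)‖ ≤ 1 := by
  have h1 : ((∑ γ ∈ F, ε γ • (gw' γ : WW N Γ) : WW N Γ) : BB N Γ) =
      (0, ∑ i ∈ F, ε i • (lp.single ⊤ i (1 : ℝ) : LG Γ)) := by
    rw [← sum_gw, Submodule.coe_sum]
    rfl
  rw [Submodule.coe_norm, h1, Prod.norm_def, norm_zero]
  refine max_le zero_le_one (lp.norm_le_of_forall_le zero_le_one (fun δ => ?_))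
  rw [dg_sum_apply]
  by_cases h : δ ∈ F
  · rw [if_pos h]; exact hε δ
  · rw [if_neg h, norm_zero]; exact zero_le_one

theorem not_iso [Countable N] [Uncountable Γ] (hinf : ∀ i, (A i).Infinite)
    (hA : ∀ i j, i ≠ j → (A i ∩ A j).Finite) : IsEmpty (XX A ≃L[ℝ] WW N Γ) := by
  refine ⟨fun T => ?_⟩
  set C : ℝ := ‖(T.symm : WW N Γ →L[ℝ] XX A)‖ with hC
  have hC0 : 0 ≤ C := ContinuousLinearMap.opNorm_nonneg _
  let v : Γ → XX A := fun γ => T.symm (gw' γ)
  have h1 : ∀ n : N, ∀ F : Finset Γ, ∑ γ ∈ F, ‖((v γ : BB N Γ)).1 n‖ ^ 2 ≤ C ^ 2 := by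
    intro n F
    obtain ⟨ε, hε, hs⟩ := exists_signs (fun γ => ((v γ : BB N Γ)).1 n) F
    refine hs.trans ?_
    have h2 : ∑ γ ∈ F, ε γ • ((v γ : BB N Γ)).1 n =
        ((T.symm (∑ γ ∈ F, ε γ • (gw' γ : WW N Γ)) : XX A) : BB N Γ).1 n := by
      rw [map_sum, Submodule.coe_sum, Prod.fst_sum, lp.coeFn_sum, Finset.sum_apply]
      refine Finset.sum_congr rfl (fun γ _ => ?_)
      rw [map_smul]
      rfl
    rw [h2]
    have h3 : ‖((T.symm (∑ γ ∈ F, ε γ • (gw' γ : WW N Γ)) : XX A) : BB N Γ).1 n‖ ≤ C := by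
      refine (lp.norm_apply_le_norm (p := ⊤) (by simp) _ n).trans ?_
      refine (norm_fst_le _).trans ?_
      change ‖T.symm (∑ γ ∈ F, ε γ • (gw' γ : WW N Γ))‖ ≤ C
      refine ((T.symm : WW N Γ →L[ℝ] XX A).le_opNorm _).trans ?_
      calc C * _ ≤ C * 1 := mul_le_mul_of_nonneg_left (norm_sum_gw' F ε hε) hC0
        _ = C := mul_one C
    exact pow_le_pow_left₀ (norm_nonneg _) h3 2
  have h4 : ∀ n : N, {γ : Γ | ((v γ : BB N Γ)).1 n ≠ 0}.Countable := by
    intro n
    have h5 : Summable (fun γ => ‖((v γ : BB N Γ)).1 n‖ ^ 2) :=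
      summable_of_sum_le (fun _ => sq_nonneg _) (h1 n)
    refine h5.countable_support.mono ?_
    intro γ hγ
    rw [Function.mem_support]
    exact pow_ne_zero 2 (norm_ne_zero_iff.2 hγ)
  have h6 : (⋃ n : N, {γ : Γ | ((v γ : BB N Γ)).1 n ≠ 0}).Countable := countable_iUnion h4
  obtain ⟨γ, hγ⟩ : ∃ γ, γ ∉ ⋃ n : N, {γ : Γ | ((v γ : BB N Γ)).1 n ≠ 0} := by
    by_contra hcon
    push Not at hcon
    exact not_countable (α := Γ) (countable_univ_iff.1 (h6.mono (fun γ _ => hcon γ)))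
  have h7 : ∀ n : N, ((v γ : BB N Γ)).1 n = 0 := by
    intro n
    by_contra hcon
    exact hγ (mem_iUnion.2 ⟨n, hcon⟩)
  have h8 : ((v γ : BB N Γ)).1 = 0 := lp.ext (funext h7)
  have h9 : ((v γ : BB N Γ)).2 = 0 := by
    have := norm_snd_le_fst A hinf hA (v γ).2
    rw [h8, norm_zero] at this
    exact norm_le_zero_iff.1 this
  have h10 : v γ = 0 := by
    ext1
    exact Prod.ext h8 h9
  have h11 : (gw' γ : WW N Γ) = 0 := by
    have := congrArg T h10
    rwa [T.apply_symm_apply, map_zero] at this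
  have h12 : (gw γ : BB N Γ).2 γ = 0 := by
    have := congrArg (fun w : WW N Γ => (w : BB N Γ).2 γ) h11
    exact this
  rw [gw, lp.single_apply_self] at h12
  exact one_ne_zero h12

end noniso

/-! ### Part 6: an almost disjoint family of size `ℵ₁` -/

section ad

theorem exists_ad {Γ : Type} (r : Γ → ℕ → Bool) (hr : Function.Injective r) :
    ∃ A : Γ → Set (List Bool), (∀ i, (A i).Infinite) ∧ ∀ i j, i ≠ j → (A i ∩ A j).Finite := by
  refine ⟨fun γ => range (fun n : ℕ => (List.range n).map (r γ)), ?_, ?_⟩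
  · intro γ
    refine infinite_range_of_injective ?_
    intro n m h
    have := congrArg List.length h
    simpa using this
  · intro i j hij
    have h1 : ∃ k, r i k ≠ r j k := by
      by_contra hcon
      push Not at hcon
      exact hij (hr (funext hcon))
    obtain ⟨k, hk⟩ := h1
    refine (((Set.finite_Iic k).image (fun n : ℕ => (List.range n).map (r i)))).subset ?_
    rintro l ⟨⟨n, hn⟩, ⟨m, hm⟩⟩
    refine ⟨n, ?_, hn⟩
    rw [mem_Iic]
    by_contra hcon
    push Not at hcon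
    simp only at hn hm
    have hlen : n = m := by
      have h2 := congrArg List.length hn
      have h3 := congrArg List.length hm
      simp only [List.length_map, List.length_range] at h2 h3
      omega
    subst hlen
    have h4 : (List.range n).map (r i) = (List.range n).map (r j) := hn.trans hm.symm
    rw [List.map_inj_left] at h4
    exact hk (h4 k (List.mem_range.2 hcon))

end ad

/-! ### Part 7: conclusion -/

section final

open Classical

variable {Γ N : Type} [Nonempty Γ]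

theorem wcg_of {J : Type} (g1 : N × Γ → BB N Γ) (g2 : J → BB N Γ) (h1 : UpperL2 g1)
    (h2 : UpperL2 g2) (W : Submodule ℝ (BB N Γ))
    (hW : W = (Submodule.span ℝ (range (Sum.elim g1 g2))).topologicalClosure) :
    (∃ K : Set W, IsCompact (toWeakSpace ℝ W '' K) ∧
        Dense ((Submodule.span ℝ K : Submodule ℝ W) : Set W)) := by
  have hmem : ∀ i, Sum.elim g1 g2 i ∈ W := by
    intro i
    rw [hW]
    exact Submodule.le_topologicalClosure _ (Submodule.subset_span ⟨i, rfl⟩)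
  let g' : (N × Γ) ⊕ J → W := fun i => ⟨Sum.elim g1 g2 i, hmem i⟩
  have hd := dense_span (Sum.elim g1 g2) W hW g' (fun i => rfl)
  have hu1 : UpperL2 (fun i : N × Γ => g' (Sum.inl i)) := by
    intro F c
    have := h1 F c
    rw [Submodule.coe_norm, Submodule.coe_sum]
    exact this
  have hu2 : UpperL2 (fun i : J => g' (Sum.inr i)) := by
    intro F c
    have := h2 F c
    rw [Submodule.coe_norm, Submodule.coe_sum]
    exact this
  refine ⟨insert 0 (range (fun i : N × Γ => g' (Sum.inl i))) ∪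
    insert 0 (range (fun i : J => g' (Sum.inr i))), ?_, ?_⟩
  · rw [image_union]
    exact hu1.isCompact.union hu2.isCompact
  · refine hd.mono (Submodule.span_mono ?_)
    rintro _ ⟨i, rfl⟩
    rcases i with i | i
    · exact Or.inl (Or.inr ⟨i, rfl⟩)
    · exact Or.inr (Or.inr ⟨i, rfl⟩)

theorem density_of {Γ N : Type} [Nonempty Γ] [Nonempty N] [Countable N]
    (hΓ : Cardinal.mk Γ = Cardinal.aleph 1) (g1 : N × Γ → BB N Γ) (g2 : Γ → BB N Γ)
    (W : Submodule ℝ (BB N Γ))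
    (hW : W = (Submodule.span ℝ (range (Sum.elim g1 g2))).topologicalClosure)
    (hsep : ∀ γ, (g2 γ).2 = lp.single ⊤ γ 1) :
    ((∃ D : Set W, Dense D ∧ Cardinal.mk D ≤ Cardinal.aleph 1) ∧
      (∀ D : Set W, Dense D → Cardinal.aleph 1 ≤ Cardinal.mk D)) := by
  have hmem : ∀ i, Sum.elim g1 g2 i ∈ W := by
    intro i
    rw [hW]
    exact Submodule.le_topologicalClosure _ (Submodule.subset_span ⟨i, rfl⟩)
  let g' : (N × Γ) ⊕ Γ → W := fun i => ⟨Sum.elim g1 g2 i, hmem i⟩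
  have hd := dense_span (Sum.elim g1 g2) W hW g' (fun i => rfl)
  constructor
  · refine exists_dense_le g' hd ?_
    have h1 : Cardinal.mk ((N × Γ) ⊕ Γ) = Cardinal.mk N * Cardinal.mk Γ + Cardinal.mk Γ := by
      simp
    rw [h1, hΓ]
    have h2 : Cardinal.mk N * Cardinal.aleph 1 ≤ Cardinal.aleph 1 := by
      calc Cardinal.mk N * Cardinal.aleph 1 ≤ Cardinal.aleph 1 * Cardinal.aleph 1 :=
            mul_le_mul' (Cardinal.mk_le_aleph0.trans (Cardinal.aleph0_le_aleph 1)) le_rfl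
        _ = Cardinal.aleph 1 := Cardinal.mul_eq_self (Cardinal.aleph0_le_aleph 1)
    exact (add_le_add h2 le_rfl).trans
      (Cardinal.add_eq_self (Cardinal.aleph0_le_aleph 1)).le
  · intro D hD
    rw [← hΓ]
    refine le_of_dense (fun γ => g' (Sum.inr γ)) ?_ D hD
    intro i j hij
    have h3 : ‖((g2 i).2 - (g2 j).2) i‖ ≤ ‖g' (Sum.inr i) - g' (Sum.inr j)‖ := by
      refine (lp.norm_apply_le_norm (p := ⊤) (by simp) _ i).trans ?_
      exact norm_snd_le (g2 i - g2 j)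
    rw [hsep, hsep, lp.coeFn_sub, Pi.sub_apply, lp.single_apply_self,
      lp.single_apply_ne _ _ _ hij, sub_zero, norm_one] at h3
    exact h3

end final

theorem main :
  ∃ (X Y : Type) (_ : NormedAddCommGroup X) (_ : NormedSpace ℝ X) (_ : CompleteSpace X)
    (_ : NormedAddCommGroup Y) (_ : NormedSpace ℝ Y) (_ : CompleteSpace Y),
    (∃ K : Set X, IsCompact (toWeakSpace ℝ X '' K) ∧
        Dense ((Submodule.span ℝ K : Submodule ℝ X) : Set X)) ∧
    (∃ K : Set Y, IsCompact (toWeakSpace ℝ Y '' K) ∧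
        Dense ((Submodule.span ℝ K : Submodule ℝ Y) : Set Y)) ∧
    ((∃ D : Set X, Dense D ∧ Cardinal.mk ↥D ≤ Cardinal.aleph 1) ∧
      (∀ D : Set X, Dense D → Cardinal.aleph 1 ≤ Cardinal.mk ↥D)) ∧
    ((∃ D : Set Y, Dense D ∧ Cardinal.mk ↥D ≤ Cardinal.aleph 1) ∧
      (∀ D : Set Y, Dense D → Cardinal.aleph 1 ≤ Cardinal.mk ↥D)) ∧
    (∃ (f : X ≃ Y) (A B : NNReal), LipschitzWith A f ∧ LipschitzWith B f.symm) ∧
    IsEmpty (X ≃L[ℝ] Y) := by
  obtain ⟨Γ, hΓ⟩ : ∃ Γ : Type, Cardinal.mk Γ = Cardinal.aleph 1 :=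
    ⟨(Cardinal.aleph 1).out, Cardinal.mk_out _⟩
  have hlt : Cardinal.aleph0 < Cardinal.mk Γ := by
    rw [hΓ, ← Cardinal.aleph_zero]
    exact Cardinal.aleph_lt_aleph.2 zero_lt_one
  have hunc : Uncountable Γ := by
    rw [← Cardinal.aleph0_lt_mk_iff]
    exact hlt
  have hne : Nonempty Γ := by
    have : Infinite Γ := Cardinal.infinite_iff.2 hlt.le
    infer_instance
  obtain ⟨r, hr⟩ : ∃ r : Γ → ℕ → Bool, Function.Injective r := by
    have h1 : Cardinal.mk Γ ≤ Cardinal.mk (ℕ → Bool) := by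
      rw [hΓ]
      have : Cardinal.mk (ℕ → Bool) = Cardinal.continuum := by simp
      rw [this]
      exact Cardinal.aleph_one_le_continuum
    obtain ⟨e⟩ := Cardinal.le_def _ _ |>.1 h1
    exact ⟨e, e.injective⟩
  obtain ⟨A, hinf, hA⟩ := exists_ad r hr
  have hX : CompleteSpace (XX A) :=
    (Submodule.isClosed_topologicalClosure _).completeSpace_coe
  have hY : CompleteSpace (WW (List Bool) Γ) :=
    (Submodule.isClosed_topologicalClosure _).completeSpace_coe
  refine ⟨XX A, WW (List Bool) Γ, inferInstance, inferInstance, hX, inferInstance, inferInstance,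
    hY, ?_, ?_, ?_, ?_, ?_, ?_⟩
  · exact wcg_of gz (gx A) upper_gz (upper_gx A) (XX A) rfl
  · exact wcg_of gz gw upper_gz upper_gw (WW (List Bool) Γ) rfl
  · exact density_of hΓ gz (gx A) (XX A) rfl (fun γ => rfl)
  · exact density_of hΓ gz gw (WW (List Bool) Γ) rfl (fun γ => rfl)
  · exact ⟨EE A hA, 5, 5, EE_lip A hA, EE_symm_lip A hA⟩
  · exact not_iso A hinf hA

end

end Pool.Agent.Helper830.LipWCG
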